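import Pool.Agent.KDT.StmtsK
import Pool.Agent.KDT.StmtsZ

set_option autoImplicit false

/-!
# KDS (MP_160b6c_nt): Kummer determinants for every Szpiro ratio. Definitions.

`kum f A B = (1, s, p, k₄)` as in KDT. `dup` = the duplication polynomials:
`kum (2 w) * dup 0 = dup (kum w)`, quartic forms with integer coefficients in `f₀, .., f₄`.
-/

namespace Pool.Agent.KDS

open Polynomial NumberField H58Q Pool.Agent.SZT Pool.Agent.KDT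

/-! ### duplication -/

/-- component 0 of the duplication -/
noncomputable def dup0 {K : Type} [Field K] (f : K[X]) (u : Fin 4 → K) : K :=
    8 * (u 2) ^ 3 * u 3 + 4 * f.coeff 4 * (u 2) ^ 4 - 4 * u 1 * u 2 * (u 3) ^ 2
      + 4 * f.coeff 3 * u 1 * (u 2) ^ 3 + 4 * u 0 * (u 3) ^ 3
      - 4 * f.coeff 3 * u 0 * (u 2) ^ 2 * u 3 + 4 * f.coeff 2 * (u 1) ^ 2 * (u 2) ^ 2
      - 8 * f.coeff 2 * u 0 * u 1 * u 2 * u 3 - 8 * f.coeff 1 * u 0 * u 1 * (u 2) ^ 2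
      + 4 * f.coeff 2 * (u 0) ^ 2 * (u 3) ^ 2 - 8 * f.coeff 1 * (u 0) ^ 2 * u 2 * u 3
      + 16 * f.coeff 0 * (u 0) ^ 2 * (u 2) ^ 2
      - 8 * f.coeff 4 * f.coeff 1 * (u 0) ^ 2 * (u 2) ^ 2 + 4 * f.coeff 1 * (u 1) ^ 3 * u 2
      - 4 * f.coeff 1 * u 0 * (u 1) ^ 2 * u 3 - 16 * f.coeff 0 * u 0 * (u 1) ^ 2 * u 2
      - 32 * f.coeff 0 * (u 0) ^ 2 * u 1 * u 3
      - 4 * f.coeff 3 * f.coeff 1 * (u 0) ^ 2 * u 1 * u 2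
      - 16 * f.coeff 4 * f.coeff 0 * (u 0) ^ 2 * u 1 * u 2
      + 4 * f.coeff 3 * f.coeff 1 * (u 0) ^ 3 * u 3
      - 16 * f.coeff 4 * f.coeff 0 * (u 0) ^ 3 * u 3
      - 16 * f.coeff 3 * f.coeff 0 * (u 0) ^ 3 * u 2 + 4 * f.coeff 0 * (u 1) ^ 4
      - 8 * f.coeff 3 * f.coeff 0 * (u 0) ^ 2 * (u 1) ^ 2 + 8 * (f.coeff 1) ^ 2 * (u 0) ^ 3 * u 1
      - 32 * f.coeff 2 * f.coeff 0 * (u 0) ^ 3 * u 1
      + 4 * (f.coeff 3) ^ 2 * f.coeff 0 * (u 0) ^ 4 + 4 * f.coeff 4 * (f.coeff 1) ^ 2 * (u 0) ^ 4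
      - 16 * f.coeff 4 * f.coeff 2 * f.coeff 0 * (u 0) ^ 4

/-- component 1 of the duplication -/
noncomputable def dup1 {K : Type} [Field K] (f : K[X]) (u : Fin 4 → K) : K :=
    4 * (u 2) ^ 2 * (u 3) ^ 2 - 4 * f.coeff 3 * (u 2) ^ 4 + 4 * u 1 * (u 3) ^ 3
      + 8 * f.coeff 4 * u 1 * u 2 * (u 3) ^ 2 + 12 * f.coeff 3 * u 1 * (u 2) ^ 2 * u 3
      + 12 * f.coeff 3 * u 0 * u 2 * (u 3) ^ 2 + 16 * f.coeff 2 * u 0 * (u 2) ^ 2 * u 3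
      + 8 * f.coeff 4 * f.coeff 3 * u 0 * (u 2) ^ 2 * u 3 + 16 * f.coeff 1 * u 0 * (u 2) ^ 3
      + 4 * (f.coeff 3) ^ 2 * u 0 * (u 2) ^ 3 + 8 * f.coeff 2 * (u 1) ^ 2 * u 2 * u 3
      + 4 * f.coeff 1 * (u 1) ^ 2 * (u 2) ^ 2 + 8 * f.coeff 2 * u 0 * u 1 * (u 3) ^ 2
      + 16 * f.coeff 1 * u 0 * u 1 * u 2 * u 3
      + 16 * f.coeff 4 * f.coeff 2 * u 0 * u 1 * u 2 * u 3
      + 32 * f.coeff 0 * u 0 * u 1 * (u 2) ^ 2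
      + 8 * f.coeff 3 * f.coeff 2 * u 0 * u 1 * (u 2) ^ 2
      + 16 * f.coeff 4 * f.coeff 1 * u 0 * u 1 * (u 2) ^ 2
      + 4 * f.coeff 1 * (u 0) ^ 2 * (u 3) ^ 2 - 16 * f.coeff 0 * (u 0) ^ 2 * u 2 * u 3
      + 8 * f.coeff 3 * f.coeff 2 * (u 0) ^ 2 * u 2 * u 3
      + 16 * f.coeff 4 * f.coeff 1 * (u 0) ^ 2 * u 2 * u 3
      + 16 * (f.coeff 2) ^ 2 * (u 0) ^ 2 * (u 2) ^ 2
      - 24 * f.coeff 3 * f.coeff 1 * (u 0) ^ 2 * (u 2) ^ 2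
      + 16 * (f.coeff 4) ^ 2 * f.coeff 1 * (u 0) ^ 2 * (u 2) ^ 2
      + 4 * f.coeff 1 * (u 1) ^ 3 * u 3 + 8 * f.coeff 0 * (u 1) ^ 3 * u 2
      + 8 * f.coeff 0 * u 0 * (u 1) ^ 2 * u 3 + 8 * f.coeff 4 * f.coeff 1 * u 0 * (u 1) ^ 2 * u 3
      + 12 * f.coeff 3 * f.coeff 1 * u 0 * (u 1) ^ 2 * u 2
      + 32 * f.coeff 4 * f.coeff 0 * u 0 * (u 1) ^ 2 * u 2
      + 12 * f.coeff 3 * f.coeff 1 * (u 0) ^ 2 * u 1 * u 3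
      + 16 * f.coeff 4 * f.coeff 0 * (u 0) ^ 2 * u 1 * u 3
      + 16 * f.coeff 2 * f.coeff 1 * (u 0) ^ 2 * u 1 * u 2
      - 40 * f.coeff 3 * f.coeff 0 * (u 0) ^ 2 * u 1 * u 2
      + 8 * f.coeff 4 * f.coeff 3 * f.coeff 1 * (u 0) ^ 2 * u 1 * u 2
      + 32 * (f.coeff 4) ^ 2 * f.coeff 0 * (u 0) ^ 2 * u 1 * u 2
      + 24 * f.coeff 3 * f.coeff 0 * (u 0) ^ 3 * u 3 + 16 * (f.coeff 1) ^ 2 * (u 0) ^ 3 * u 2
      - 32 * f.coeff 2 * f.coeff 0 * (u 0) ^ 3 * u 2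
      + 4 * (f.coeff 3) ^ 2 * f.coeff 1 * (u 0) ^ 3 * u 2
      + 16 * f.coeff 4 * f.coeff 3 * f.coeff 0 * (u 0) ^ 3 * u 2
      + 16 * f.coeff 3 * f.coeff 0 * u 0 * (u 1) ^ 3
      + 4 * (f.coeff 1) ^ 2 * (u 0) ^ 2 * (u 1) ^ 2
      + 16 * f.coeff 4 * f.coeff 3 * f.coeff 0 * (u 0) ^ 2 * (u 1) ^ 2
      + 16 * f.coeff 1 * f.coeff 0 * (u 0) ^ 3 * u 1
      + 16 * (f.coeff 3) ^ 2 * f.coeff 0 * (u 0) ^ 3 * u 1 + 16 * (f.coeff 0) ^ 2 * (u 0) ^ 4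
      - 4 * f.coeff 3 * (f.coeff 1) ^ 2 * (u 0) ^ 4
      + 16 * f.coeff 3 * f.coeff 2 * f.coeff 0 * (u 0) ^ 4

/-- component 2 of the duplication -/
noncomputable def dup2 {K : Type} [Field K] (f : K[X]) (u : Fin 4 → K) : K :=
    4 * u 2 * (u 3) ^ 3 + 4 * f.coeff 4 * (u 2) ^ 2 * (u 3) ^ 2 + 4 * f.coeff 3 * (u 2) ^ 3 * u 3
      + 4 * f.coeff 2 * (u 2) ^ 4 + 8 * f.coeff 1 * u 1 * (u 2) ^ 3
      - 8 * f.coeff 1 * u 0 * (u 2) ^ 2 * u 3 - 16 * f.coeff 0 * u 0 * (u 2) ^ 3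
      - 4 * f.coeff 1 * (u 1) ^ 2 * u 2 * u 3 + 12 * f.coeff 0 * (u 1) ^ 2 * (u 2) ^ 2
      - 4 * f.coeff 1 * u 0 * u 1 * (u 3) ^ 2 - 24 * f.coeff 0 * u 0 * u 1 * u 2 * u 3
      - 8 * f.coeff 4 * f.coeff 1 * u 0 * u 1 * u 2 * u 3
      - 4 * f.coeff 3 * f.coeff 1 * u 0 * u 1 * (u 2) ^ 2
      - 16 * f.coeff 4 * f.coeff 0 * u 0 * u 1 * (u 2) ^ 2
      - 12 * f.coeff 0 * (u 0) ^ 2 * (u 3) ^ 2
      - 4 * f.coeff 3 * f.coeff 1 * (u 0) ^ 2 * u 2 * u 3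
      - 16 * f.coeff 4 * f.coeff 0 * (u 0) ^ 2 * u 2 * u 3
      - 8 * f.coeff 2 * f.coeff 1 * (u 0) ^ 2 * (u 2) ^ 2
      + 24 * f.coeff 3 * f.coeff 0 * (u 0) ^ 2 * (u 2) ^ 2
      - 16 * (f.coeff 4) ^ 2 * f.coeff 0 * (u 0) ^ 2 * (u 2) ^ 2
      - 8 * f.coeff 0 * (u 1) ^ 3 * u 3 - 16 * f.coeff 4 * f.coeff 0 * u 0 * (u 1) ^ 2 * u 3
      - 24 * f.coeff 3 * f.coeff 0 * u 0 * (u 1) ^ 2 * u 2
      - 24 * f.coeff 3 * f.coeff 0 * (u 0) ^ 2 * u 1 * u 3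
      - 8 * (f.coeff 1) ^ 2 * (u 0) ^ 2 * u 1 * u 2
      - 16 * f.coeff 4 * f.coeff 3 * f.coeff 0 * (u 0) ^ 2 * u 1 * u 2
      + 8 * (f.coeff 1) ^ 2 * (u 0) ^ 3 * u 3 - 32 * f.coeff 2 * f.coeff 0 * (u 0) ^ 3 * u 3
      - 16 * f.coeff 1 * f.coeff 0 * (u 0) ^ 3 * u 2
      - 8 * (f.coeff 3) ^ 2 * f.coeff 0 * (u 0) ^ 3 * u 2 + 4 * (f.coeff 1) ^ 2 * u 0 * (u 1) ^ 3
      - 16 * f.coeff 2 * f.coeff 0 * u 0 * (u 1) ^ 3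
      - 8 * f.coeff 1 * f.coeff 0 * (u 0) ^ 2 * (u 1) ^ 2
      + 4 * f.coeff 4 * (f.coeff 1) ^ 2 * (u 0) ^ 2 * (u 1) ^ 2
      - 16 * f.coeff 4 * f.coeff 2 * f.coeff 0 * (u 0) ^ 2 * (u 1) ^ 2
      - 32 * (f.coeff 0) ^ 2 * (u 0) ^ 3 * u 1
      + 4 * f.coeff 3 * (f.coeff 1) ^ 2 * (u 0) ^ 3 * u 1
      - 16 * f.coeff 3 * f.coeff 2 * f.coeff 0 * (u 0) ^ 3 * u 1
      + 4 * f.coeff 2 * (f.coeff 1) ^ 2 * (u 0) ^ 4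
      - 16 * (f.coeff 2) ^ 2 * f.coeff 0 * (u 0) ^ 4
      + 8 * f.coeff 3 * f.coeff 1 * f.coeff 0 * (u 0) ^ 4
      - 16 * f.coeff 4 * (f.coeff 0) ^ 2 * (u 0) ^ 4

/-- component 3 of the duplication -/
noncomputable def dup3 {K : Type} [Field K] (f : K[X]) (u : Fin 4 → K) : K :=
    (u 3) ^ 4 - 2 * f.coeff 3 * (u 2) ^ 2 * (u 3) ^ 2 - 8 * f.coeff 2 * (u 2) ^ 3 * u 3
      - 2 * f.coeff 1 * (u 2) ^ 4 + (f.coeff 3) ^ 2 * (u 2) ^ 4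
      - 4 * f.coeff 4 * f.coeff 2 * (u 2) ^ 4 - 12 * f.coeff 1 * u 1 * (u 2) ^ 2 * u 3
      - 8 * f.coeff 0 * u 1 * (u 2) ^ 3 - 8 * f.coeff 4 * f.coeff 1 * u 1 * (u 2) ^ 3
      - 8 * f.coeff 0 * u 0 * (u 2) ^ 2 * u 3 - 4 * f.coeff 3 * f.coeff 1 * u 0 * (u 2) ^ 3
      - 16 * f.coeff 0 * (u 1) ^ 2 * u 2 * u 3
      - 2 * f.coeff 3 * f.coeff 1 * (u 1) ^ 2 * (u 2) ^ 2
      - 16 * f.coeff 4 * f.coeff 0 * (u 1) ^ 2 * (u 2) ^ 2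
      + 8 * f.coeff 0 * u 0 * u 1 * (u 3) ^ 2 + 4 * f.coeff 3 * f.coeff 1 * u 0 * u 1 * u 2 * u 3
      - 8 * f.coeff 3 * f.coeff 0 * u 0 * u 1 * (u 2) ^ 2
      - 2 * f.coeff 3 * f.coeff 1 * (u 0) ^ 2 * (u 3) ^ 2
      + 8 * f.coeff 4 * f.coeff 0 * (u 0) ^ 2 * (u 3) ^ 2
      + 16 * f.coeff 3 * f.coeff 0 * (u 0) ^ 2 * u 2 * u 3
      + 12 * (f.coeff 1) ^ 2 * (u 0) ^ 2 * (u 2) ^ 2
      - 32 * f.coeff 2 * f.coeff 0 * (u 0) ^ 2 * (u 2) ^ 2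
      + 8 * f.coeff 4 * f.coeff 3 * f.coeff 0 * (u 0) ^ 2 * (u 2) ^ 2
      - 8 * f.coeff 3 * f.coeff 0 * (u 1) ^ 3 * u 2
      + 8 * f.coeff 3 * f.coeff 0 * u 0 * (u 1) ^ 2 * u 3
      - 12 * (f.coeff 1) ^ 2 * (u 0) ^ 2 * u 1 * u 3
      + 48 * f.coeff 2 * f.coeff 0 * (u 0) ^ 2 * u 1 * u 3
      + 16 * f.coeff 1 * f.coeff 0 * (u 0) ^ 2 * u 1 * u 2
      + 8 * (f.coeff 3) ^ 2 * f.coeff 0 * (u 0) ^ 2 * u 1 * u 2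
      - 8 * (f.coeff 3) ^ 2 * f.coeff 0 * (u 0) ^ 3 * u 3
      - 8 * f.coeff 4 * (f.coeff 1) ^ 2 * (u 0) ^ 3 * u 3
      + 32 * f.coeff 4 * f.coeff 2 * f.coeff 0 * (u 0) ^ 3 * u 3
      + 32 * (f.coeff 0) ^ 2 * (u 0) ^ 3 * u 2
      - 4 * f.coeff 3 * (f.coeff 1) ^ 2 * (u 0) ^ 3 * u 2
      + 16 * f.coeff 3 * f.coeff 2 * f.coeff 0 * (u 0) ^ 3 * u 2 + (f.coeff 1) ^ 2 * (u 1) ^ 4
      - 4 * f.coeff 2 * f.coeff 0 * (u 1) ^ 4 + 16 * (f.coeff 0) ^ 2 * (u 0) ^ 2 * (u 1) ^ 2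
      - 2 * f.coeff 3 * (f.coeff 1) ^ 2 * (u 0) ^ 2 * (u 1) ^ 2
      + 8 * f.coeff 3 * f.coeff 2 * f.coeff 0 * (u 0) ^ 2 * (u 1) ^ 2
      - 8 * f.coeff 2 * (f.coeff 1) ^ 2 * (u 0) ^ 3 * u 1
      + 32 * (f.coeff 2) ^ 2 * f.coeff 0 * (u 0) ^ 3 * u 1
      - 16 * f.coeff 3 * f.coeff 1 * f.coeff 0 * (u 0) ^ 3 * u 1
      + 32 * f.coeff 4 * (f.coeff 0) ^ 2 * (u 0) ^ 3 * u 1 - 2 * (f.coeff 1) ^ 3 * (u 0) ^ 4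
      + 8 * f.coeff 2 * f.coeff 1 * f.coeff 0 * (u 0) ^ 4
      - 16 * f.coeff 3 * (f.coeff 0) ^ 2 * (u 0) ^ 4
      + (f.coeff 3) ^ 2 * (f.coeff 1) ^ 2 * (u 0) ^ 4
      - 4 * (f.coeff 3) ^ 2 * f.coeff 2 * f.coeff 0 * (u 0) ^ 4
      - 4 * f.coeff 4 * f.coeff 2 * (f.coeff 1) ^ 2 * (u 0) ^ 4
      + 16 * f.coeff 4 * (f.coeff 2) ^ 2 * f.coeff 0 * (u 0) ^ 4
      - 8 * f.coeff 4 * f.coeff 3 * f.coeff 1 * f.coeff 0 * (u 0) ^ 4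
      + 16 * (f.coeff 4) ^ 2 * (f.coeff 0) ^ 2 * (u 0) ^ 4

/-- The duplication polynomials (quartic forms in the Kummer coordinates). -/
noncomputable def dup {K : Type} [Field K] (f : K[X]) (u : Fin 4 → K) : Fin 4 → K :=
  ![dup0 f u, dup1 f u, dup2 f u, dup3 f u]

/-- The iterated duplication. -/
noncomputable def dpw {K : Type} [Field K] (f : K[X]) : ℕ → (Fin 4 → K) → (Fin 4 → K)
  | 0, u => u
  | a + 1, u => dpw f a (dup f u)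

/-- The level: `lev i = 2 (4^i - 1)/3`. -/
def lev : ℕ → ℕ
  | 0 => 0
  | i + 1 => 4 * lev i + 2

/-- The columns of level `i`: one quadratic monomial for every `a < i`. -/
abbrev QI (i : ℕ) : Type := Fin i → Ex 2

/-- The function of a column: `∏ q_a(dup^a u)`. -/
noncomputable def PQ {K : Type} [Field K] (f : K[X]) (i : ℕ) (q : QI i) (u : Fin 4 → K) : K :=
  ∏ a : Fin i, mon (q a).1 (dpw f a u)

/-- The double `(A₂, B₂)` of `(A, B)`: `V ≡ B` modulo `A`, `V² - f = m² A² A₂`, `V ≡ - B₂` modulo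
`A₂`. -/
structure Dbl {K : Type} [Field K] (f A B : K[X]) (m : K) (A₂ B₂ V : K[X]) : Prop where
  mum : Mum f A₂ B₂
  two : A₂.natDegree = 2
  degV : V.natDegree ≤ 3
  lead : V.coeff 3 = m
  mne : m ≠ 0
  eq : V ^ 2 - f = C (m ^ 2) * (A ^ 2 * A₂)
  dvd : A ∣ V - B
  dvd' : A₂ ∣ V + B₂

/-! ### shifts and translations -/

/-- The coordinates after the shift `x ↦ x + a`: `kum (f(x+a)) = uni (shc f a) (kum f)`. -/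
noncomputable def shc {K : Type} [Field K] (f : K[X]) (a : K) : Fin 6 → K :=
  ![-2 * a, -a, a ^ 2, -2 * a, a ^ 2, -(4 * a ^ 3 + 2 * f.coeff 4 * a ^ 2 + f.coeff 3 * a)]

/-- Two coefficients of the matrix `MT`. -/
noncomputable def mA {K : Type} [Field K] (f : K[X]) (a : K) : K :=
  -(2 * a ^ 3 + 2 * f.coeff 4 * a ^ 2 + f.coeff 3 * a)

/-- See `mA`. -/
noncomputable def mB {K : Type} [Field K] (f : K[X]) (a : K) : K :=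
  2 * a ^ 4 + 2 * f.coeff 4 * a ^ 3 + 2 * f.coeff 3 * a ^ 2 + 2 * f.coeff 2 * a + f.coeff 1

/-- `f'(a)` in terms of the coefficients (`f` a monic quintic). -/
noncomputable def fd {K : Type} [Field K] (f : K[X]) (a : K) : K :=
  5 * a ^ 4 + 4 * f.coeff 4 * a ^ 3 + 3 * f.coeff 3 * a ^ 2 + 2 * f.coeff 2 * a + f.coeff 1

/-- Translation by the 2-torsion point of the root `a` in Kummer coordinates:
`A(a) kum(w + t_a) = MT f a (kum w)`. -/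
noncomputable def MT {K : Type} [Field K] (f : K[X]) (a : K) (u : Fin 4 → K) : Fin 4 → K :=
  ![a ^ 2 * u 0 - a * u 1 + u 2, mA f a * u 0 - a ^ 2 * u 1 + u 3,
    mB f a * u 0 - a ^ 2 * u 2 + a * u 3, mB f a * u 1 - mA f a * u 2 + a ^ 2 * u 3]

/-- The alternating form on the Kummer coordinates. -/
noncomputable def XX {K : Type} [Field K] (u v : Fin 4 → K) : K :=
  u 3 * v 0 - u 0 * v 3 + u 1 * v 2 - u 2 * v 1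

/-- The ten quadrics with pairwise different characters: `(b - a) u₃² + ..`. -/
noncomputable def QQ {K : Type} [Field K] (f : K[X]) (a b : K) (u : Fin 4 → K) : K :=
  XX u (MT f a (MT f b u))

/-! ### the node: Gauss norms -/

/-- `g` has the root `0`, `|g₁| ≤ exp(-δ/2)`, integral coefficients (`δ = - log |disc|`, the node is at
`0`). -/
structure NdC {E : Type} [Field E] (w : AbsoluteValue E ℝ) (g : E[X]) (δ : ℝ) : Prop where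
  na : IsNonarchimedean w
  pos : 0 < δ
  c0 : g.coeff 0 = 0
  c1 : w (g.coeff 1) ≤ Real.exp (-δ / 2)
  c2 : w (g.coeff 2) ≤ 1
  c3 : w (g.coeff 3) ≤ 1
  c4 : w (g.coeff 4) ≤ 1

/-- `F` has a reduced representation of degree `κ` on the set `Y` with coefficients bounded by
`exp(-δ (ν σ - (κ - J) σ))` for all `σ ∈ [0, 1/2]`. -/
def RN {E : Type} [Field E] (w : AbsoluteValue E ℝ) (δ : ℝ) (Y : Set (Fin 4 → E)) (κ : ℕ)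
    (ν : ℝ → ℝ) (F : (Fin 4 → E) → E) : Prop :=
  ∃ a : Ex κ → E, (∀ u ∈ Y, F u = ∑ e, a e * mon e.1 u) ∧
    ∀ (e : Ex κ) (σ : ℝ), 0 ≤ σ → σ ≤ 1 / 2 →
      w (a e) ≤ Real.exp (-δ * (ν σ - ((κ : ℝ) - jj e.1) * σ))

/-- The set where the first `i` duplications lie on the quartic. -/
def YY {E : Type} [Field E] (g : E[X]) (i : ℕ) : Set (Fin 4 → E) :=
  {u | ∀ b ≤ i, quart g (dpw g b u) = 0}

/-- `Γ` is a lower bound for the gain of level `i`. -/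
def Gain (i : ℕ) (Γ : ℝ) : Prop :=
  ∀ s : QI i → Ex (lev i), Function.Injective s →
    Γ ≤ ∑ q, max 0 ((jj (s q).1 : ℝ) ^ 2 / (4 * lev i) - i / 2)

/-! ### generic points -/

/-- `(A, B)` is a generic point over `K`: `s` and `p` are algebraically independent. -/
def Gnc (K : Type) {E : Type} [Field K] [Field E] [Algebra K E] (A : E[X]) : Prop :=
  AlgebraicIndependent K ![-A.coeff 1, A.coeff 0]

/-- **KDS.** The theorem. -/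
def KdsStatement : Prop :=
  ∀ (d : ℕ) (ε : ℝ), 0 < ε → ∃ B : ℕ, ∀ (K : Type) [Field K] [NumberField K],
    Module.finrank ℚ K ≤ d → ∀ (Y : UBT.OddCurve K), Y.f.Monic → Y.f.natDegree = 5 →
    (∀ n, IsIntegral ℤ (Y.f.coeff n)) →
    ∀ S : Finset (FinitePlace K), (∀ v ∈ S, NodeShape v.val Y.f ∧ v (discr Y.f) < 1) →
    ε * lH Y.f ≤ ∑ v ∈ S, Real.log (Ideal.absNorm v.maximalIdeal.asIdeal) →
    (∀ c : Y.Jac, IsOfFinOrder c → orderOf c ≤ B) ∨ Thin B Y.f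

end Pool.Agent.KDS
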