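import Pool.Agent.KDS.Defs

set_option autoImplicit false

/-!
# KDS, block D (doubling), block S (shift, node), block N (counting). Complete proofs in the docstrings.

DELIVER: `Pool/Agent/HelperNN_KDS/XXX.lean`, `import Pool.Agent.KDS.StmtsA`, namespace
`Pool.Agent.KDS.HNN`, theorem `xxx (hypotheses = the statements in the column uses, in this order) :
XxxStatement`. SZT, KDT and KDT.Z statements are proved or being proved: a row may import a proof or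
take the statement as a hypothesis (named in uses). No straight double quotes, no `congr!`, `convert`,
`native_decide`, `notation`, `sorry`. All identities below are checked by computer.
-/

namespace Pool.Agent.KDS

open Polynomial NumberField H58Q Pool.Agent.SZT Pool.Agent.KDT

/-! ## Block D: doubling -/

/-- **Row DPA** (algebra of doubling). PROOF. `A = X² - s X + p`, `B = b₁ X + b₀`,
`f - B² = A C'`, `C' = X³ + c₂ X² + c₁ X + c₀`, `r = b₀² + b₀ b₁ s + b₁² p = Res(A, B) ≠ 0` (`A` is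
coprime to `f ≡ B²`), `resultant A (2 * B) = 4 r`. `γ₁ = c₁ - p + s (c₂ + s)`,
`γ₀ = c₀ - p (c₂ + s)`: `C' = (X + c₂ + s) A + γ₁ X + γ₀`. `m = (b₀ γ₁ - b₁ γ₀)/(2 r)`,
`m₀ = ((b₁ s + b₀) γ₀ + b₁ p γ₁)/(2 r)`, `N = m X + m₀`: then `γ₁ = 2 (b₁ m s + b₁ m₀ + b₀ m)`,
`γ₀ = 2 (b₀ m₀ - b₁ m p)` and `C' - 2 B N = A (X + c₂ + s - 2 b₁ m)`. `V = B + A N`:
`f - V² = A (C' - 2 B N) - A² N² = A² (X + c₂ + s - 2 b₁ m - N²)`. CASE `m ≠ 0`:
`A₂ = m⁻² (N² - X - (c₂ + s) + 2 b₁ m)`, monic, `s₂ = (1 - 2 m m₀)/m²`,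
`p₂ = (m₀² - c₂ - s + 2 b₁ m)/m²`, `B₂ = (-V) %ₘ A₂`. Use `s, p, b₀, b₁, m, m₀, c₂` as parameters
(`c₁ = γ₁ + p - s (c₂ + s)`, `c₀ = γ₀ + p (c₂ + s)`, `f = B² + A C'`, `k₄ = -(c₀ + p c₂)`):
`dup0 = 16 r² m²`, `dup1 = 16 r² (1 - 2 m m₀)`, `dup2 = 16 r² (m₀² - c₂ - s + 2 b₁ m)`,
`dup3 = 16 r² m² k₄(A₂, B₂)` are polynomial identities (the last after multiplication by a power of
`m`; `B₂ = -(V mod A₂)`: with `X² = s₂ X - p₂`, `b₁' = -(v₁ + v₂ s₂ + v₃ (s₂² - p₂))`).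
CASE `m = 0`: `f - V² = A² (X - C a)`, `V = B + m₀ A`. -/
def DpaStatement : Prop :=
  ∀ (K : Type) [Field K] (f A B : K[X]), (2 : K) ≠ 0 → f.Monic → f.natDegree = 5 → Good f A B →
    (∃ (m : K) (A₂ B₂ V : K[X]), Dbl f A B m A₂ B₂ V ∧
      dup f (kum f A B) 0 = (m * resultant A (2 * B)) ^ 2 ∧
      dup f (kum f A B) 0 ≠ 0 ∧
      ∀ l, dup f (kum f A B) l = dup f (kum f A B) 0 * kum f A₂ B₂ l) ∨
    ∃ (a : K) (V : K[X]), V.natDegree ≤ 2 ∧ f - V ^ 2 = A ^ 2 * (X - C a) ∧ A ∣ V - B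

/-- **Row DPB** (the class of the double; uses DPA, SZT.Mii, SZT.Unq, KDT.Z.Iml). PROOF. `A` is coprime to
`2 V` (`V ≡ B`, `A` coprime to `B`), so `MI f A V ^ 2 = MI f (A²) V`: `⊆` clear; the left side contains
`A²`, `A (y - V)`, `(y - V)² = - 2 V (y - V) + (f - V²)`, hence `2 V (y - V)` and `A (y - V)`, so
`y - V`. `MI f A V = MI f A B` (IML (3)). In the first case of DPA: IML (1) for `L = V`, `A²`, `A₂`,
`c = m²`: `MI f (A²) V * MI f A₂ V = (y - V)`, `MI f A₂ V = MI f A₂ (-B₂)` (IML (3)). So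
`MI f A B ^ 2 * MI f A₂ (-B₂) = (y - V)`; with MII (`MI f A₂ B₂ * MI f A₂ (-B₂) = (A₂)`):
`MI f A₂ B₂` is in the class of `MI f A B ^ 2`, so of `MI f A' B'`; UNQ: `A₂ = A'`, `B₂ = B'`. In the
second case: IML (1) for `L = V`, `A²`, `X - C a`, `c = -1`: `MI f A B ^ 2` is in the class of
`MI f (X - C a) (C (-V(a)))`, a Mumford pair of degree 1: UNQ contradicts `deg A' = 2`. -/
def DpbStatement : Prop :=
  ∀ (K : Type) [Field K] (f A B A' B' : K[X]), (2 : K) ≠ 0 → f.Monic → f.natDegree = 5 →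
    Squarefree f → Good f A B → Mum f A' B' → A'.natDegree = 2 →
    SameCl (MI f A' B') (MI f A B ^ 2) →
    ∃ (m : K) (V : K[X]), Dbl f A B m A' B' V ∧
      MI f A B ^ 2 * MI f A' (-B') = Ideal.span {(⟨-V, 1⟩ : Q K f)} ∧
      dup f (kum f A B) 0 = (m * resultant A (2 * B)) ^ 2 ∧
      dup f (kum f A B) 0 ≠ 0 ∧
      ∀ l, dup f (kum f A B) l = dup f (kum f A B) 0 * kum f A' B' l

/-- **Row DVB** (STRONG; functional equation of the local height, like LVB of KDT, see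
`Helper24_KDT/LVB.lean`; uses SZT.Mik). All resultants up to sign (`v` does not see it), `h = U + y W`,
`h' = U' + y W'`. (a) The relation: `(V - y)^M = ± m^M h² (U' - y W')`: both sides generate
`MI(A,B)^(2M) MI(A',-B')^M`, the quotient is a unit, i.e. a constant `c` (norm argument: the units of
`Q K f` are constants, degrees), and the norms `V² - f = m² A² A'` give `c² = m^(2M)`.
(b) `y ↦ -V` modulo `A'` (`A' ∣ f - V²`; `U' + V W' ≡ U' - B' W' ≡ 2 U'` because `A' ∣ U' + B' W'`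
(MIK), `V ≡ -B'`): `(2V)^M ≡ ± m^M g² (2U')` mod `A'`, `g = U - V W`. So
`Res(A', 2V)^M = ± m^(2M) Res(A', g)² Res(A', 2U')`, and `Res(A', 2V) = ± Res(A', 2B')`.
(c) `Res(A, g) = Res(A, 2U)` (`V ≡ B`, `A ∣ U + B W`).
(d) `Res(A, 2B)^M = ± m^(2M) Res(A, 2U)² Res(A', g)`: `deg U = M`, leading coefficient `±1`,
`deg W ≤ M - 3`, so `deg g ≤ M`; let `M'` be its degree, `G` its leading coefficient, `P(h) = ∏ h(γ)`
over the `M'` roots `γ` of `g`. `A^M = U² - f W² ≡ - (f - V²) W²` mod `g`: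
`P(A)^M = ± P(f - V²) P(W)²`. `P(A) = ± Res(A, g)/G²`,
`P(f - V²) = ± m^(2M') Res(A, g)² Res(A', g)/G⁶`,
`P(W) = ± lc(W)^M' ∏_{W(ω)=0} g(ω)/G^(deg W)`, `g(ω) = U(ω)`, `U(ω)² = A(ω)^M`,
`Res(A, W) = ± lc(W)² ∏ A(ω)`: `P(W)² = ± Res(A, W)^M lc(W)^(2M' - 2M)/G^(2 deg W)`. If `deg W < M - 3`:
`M' = M`, `G = ±1`. If `deg W = M - 3`: `6 + 2 deg W = 2M`, the powers of `G` cancel; and if `M' < M`,
then `lc(U) = m lc(W)`, `lc(W) = ± 1/m`. And `2U ≡ - 2 B W` mod `A`: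
`Res(A, 2U) = ± Res(A, 2B) Res(A, W)`. Cancel.
CONCLUSION: `Lv(A', U') = log v Res(A', 2B') - (1/M) log v Res(A', 2U') = 2 log v m +
(2/M) log v Res(A', g) = 2 log v Res(A, 2B) - 2 log v m - (4/M) log v Res(A, 2U)`, and
`Lv(A, U) = log v Res(A, 2B) - (1/M) log v Res(A, 2U)` (`f ≡ B²` mod `A`:
`Res(A, 4f) = Res(A, 2B)²`). -/
def DvbStatement : Prop :=
  ∀ (K : Type) [Field K] (f A B A' B' V U W U' W' : K[X]) (m : K) (M : ℕ), (2 : K) ≠ 0 →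
    f.Monic → f.natDegree = 5 → Squarefree f → Good f A B → Good f A' B' →
    Dbl f A B m A' B' V →
    MI f A B ^ 2 * MI f A' (-B') = Ideal.span {(⟨-V, 1⟩ : Q K f)} →
    Gen f A B U W M → Gen f A' B' U' W' M →
    ∀ v : AbsoluteValue K ℝ, Lv v f A' U' M = 4 * Lv v f A U M - 2 * Real.log (v m) -
      2 * Real.log (v (resultant A (2 * B)))

/-! ## Block S: shift, reduced representations at a node -/

/-- **Row SHE** (shift). PROOF. (1) `g = f(x + a)`: `g₄ = f₄ + 5a`, `g₃ = f₃ + 4 a f₄ + 10 a²`, ..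
(`Polynomial.taylor` / `coeff` of `comp`, degree 5), `A(x+a) = x² - (s - 2a) x + A(a)`,
`B(x+a) = b₁ x + B(a)`. (2) `quart g (uni c u) = quart f u`: polynomial identity. (3) For every `u`:
`dup0 g (uni c u) = (uni c (dup f u)) 0 + 4 a quart f u`,
`dup1 g .. = (..) 1 - (8 f₄ a + 24 a²) quart f u`, `dup2 g .. = (..) 2 + (4 f₄ a² + 8 a³) quart f u`,
`dup3 g .. = (..) 3 - (2 f₃ a² + 8 f₄ a³ + 14 a⁴) quart f u` (`ring`). -/
def SheStatement : Prop :=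
  ∀ (K : Type) [Field K] (f : K[X]) (a : K), f.Monic → f.natDegree = 5 →
    (f.comp (X + C a)).Monic ∧ (f.comp (X + C a)).natDegree = 5 ∧
    (∀ A B : K[X], A.Monic → A.natDegree = 2 → B.degree < A.degree →
      kum (f.comp (X + C a)) (A.comp (X + C a)) (B.comp (X + C a)) =
        uni (shc f a) (kum f A B)) ∧
    (∀ u : Fin 4 → K, quart (f.comp (X + C a)) (uni (shc f a) u) = quart f u) ∧
    ∀ u : Fin 4 → K, quart f u = 0 →
      dup (f.comp (X + C a)) (uni (shc f a) u) = uni (shc f a) (dup f u)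

/-- **Row RED** (reduction of a monomial). `|c| ≤ exp(-δ γ)` with `γ = 0` for integral `c`, `γ = 1/2` if
`g₁ ∣ c`, `γ = 1` if `g₁² ∣ c`. PROOF. Strong induction on `(wt e, e 1)` (lexicographic, as in UNV of KDT,
`Helper7_KDT`): if `e ∈ Ex κ` take `a = 1` at `e`: `w 1 = 1 = exp(-δ (ν σ - (κ - J) σ))`. Otherwise
`e 1 ≥ 2`, `e 3 ≥ 2`, and `quart g u = 0` (with `g₀ = 0`) says
`u₁² u₃² = 4 u₀ u₂ u₃² + 2 g₁ u₀² u₁ u₃ + 4 g₂ u₀² u₂ u₃ + 2 g₃ u₀ u₁ u₂ u₃ + 4 g₄ u₀ u₂² u₃ +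
2 u₁ u₂² u₃ - g₁² u₀⁴ + 2 g₁ g₃ u₀³ u₂ + 4 g₁ g₄ u₀² u₁ u₂ - 2 g₁ u₀² u₂² + 4 g₂ g₄ u₀² u₂² -
g₃² u₀² u₂² + 4 g₁ u₀ u₁² u₂ + 4 g₂ u₀ u₁ u₂² + 2 g₃ u₀ u₂³ - u₂⁴`; every term `c u^e'` satisfies
`J(e') ≤ 2`, or `J(e') = 3` and `g₁ ∣ c`, or `J(e') = 4` and `g₁² ∣ c`, so
`w c ≤ exp(-δ σ (J(e') - 2))` for `0 ≤ σ ≤ 1/2`; multiply by `mon (e - (0,2,0,2))`: the new exponent
`e''` has `jj e'' = jj e - 2 + J(e')`. The bound `exp(-δ (ν - (κ - J) σ))` for `e''` times `w c` is at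
most the bound for `e`. Nonarchimedean sum. -/
def RedStatement : Prop :=
  ∀ (E : Type) [Field E] (w : AbsoluteValue E ℝ) (g : E[X]) (δ : ℝ), NdC w g δ →
    ∀ (κ : ℕ) (e : Fin 4 → ℕ), e 0 + e 1 + e 2 + e 3 = κ →
      RN w δ {u | quart g u = 0} κ (fun σ => ((κ : ℝ) - jj e) * σ) (mon e)

/-- **Row RNA** (calculus of `RN`; uses RED). PROOF. (1) add the coefficients (nonarchimedean). (2)
multiply. (3) `F F' = ∑ a_e a'_e' mon (e + e')`, RED for the monomials of degree `κ + κ'`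
(`jj (e + e') = jj e + jj e'`), (1), (2). (4) clear. The set `Y` is contained in `{quart g u = 0}`. -/
def RnaStatement : Prop :=
  ∀ (E : Type) [Field E] (w : AbsoluteValue E ℝ) (g : E[X]) (δ : ℝ) (Y : Set (Fin 4 → E)),
    NdC w g δ → (∀ u ∈ Y, quart g u = 0) →
    (∀ (κ : ℕ) (ν : ℝ → ℝ) (F F' : (Fin 4 → E) → E), RN w δ Y κ ν F → RN w δ Y κ ν F' →
      RN w δ Y κ ν (fun u => F u + F' u)) ∧
    (∀ (κ : ℕ) (ν γ : ℝ → ℝ) (c : E) (F : (Fin 4 → E) → E),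
      (∀ σ, 0 ≤ σ → σ ≤ 1 / 2 → w c ≤ Real.exp (-δ * γ σ)) → RN w δ Y κ ν F →
      RN w δ Y κ (fun σ => γ σ + ν σ) (fun u => c * F u)) ∧
    (∀ (κ κ' : ℕ) (ν ν' : ℝ → ℝ) (F F' : (Fin 4 → E) → E), RN w δ Y κ ν F → RN w δ Y κ' ν' F' →
      RN w δ Y (κ + κ') (fun σ => ν σ + ν' σ) (fun u => F u * F' u)) ∧
    (∀ (κ : ℕ) (ν ν' : ℝ → ℝ) (F : (Fin 4 → E) → E), (∀ σ, 0 ≤ σ → σ ≤ 1 / 2 → ν' σ ≤ ν σ) →
      RN w δ Y κ ν F → RN w δ Y κ ν' F) ∧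
    (∀ (κ : ℕ) (ν : ℝ → ℝ), RN w δ Y κ ν (fun _ => 0)) ∧
    ∀ (κ : ℕ) (e : Fin 4 → ℕ), e 0 + e 1 + e 2 + e 3 = κ →
      RN w δ Y κ (fun σ => ((κ : ℝ) - jj e) * σ) (mon e)

/-- **Row RDP** (the duplication polynomials; uses RNA). PROOF. Expand `dup l` (with `g₀ = 0`) into
monomials `c u^e` of degree 4 and use RNA. `l = 0, 1`: `w c exp(-δ (4 - J) σ) ≤ exp(- 2 δ σ)`: clear
for `J ≤ 2`; `J = 3`: `g₁ ∣ c`, `1/2 + σ ≥ 2 σ`; `J = 4`: `g₁² ∣ c`, `1 ≥ 2 σ`. `l = 2, 3`: the target is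
`2σ + min (2σ) (1 - 2σ) = min (4σ) 1`: `J = 0`: `4σ`; `J = 1`: `g₁ ∣ c`, `1/2 + 3σ`; `J = 2`: `g₁ ∣ c`,
`1/2 + 2σ ≥ min (4σ) 1`; `J = 3, 4`: `g₁² ∣ c`. (All these divisibilities can be read off the
definitions with `f.coeff 0 = 0`; integer constants have `w ≤ 1`.) -/
def RdpStatement : Prop :=
  ∀ (E : Type) [Field E] (w : AbsoluteValue E ℝ) (g : E[X]) (δ : ℝ) (Y : Set (Fin 4 → E)),
    NdC w g δ → (∀ u ∈ Y, quart g u = 0) →
    ∀ l : Fin 4, RN w δ Y 4 (fun σ => 2 * σ + if l ≤ 1 then 0 else min (2 * σ) (1 - 2 * σ))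
      (fun u => dup g u l)

/-- **Row RPQ** (coefficients of the columns; uses RNA, RDP). `ν_0 = 0`,
`ν_(i+1)(σ) = 2 κ_i σ + ν_i(σ')`, `σ' = min (2σ) (1 - 2σ) ∈ [0, 1/2]`, `κ_i = lev i`. CLAIM:
`RN w δ (YY g i) κ_i ν_i (PQ g i q)`. PROOF by induction: `PQ (i+1) q u = mon (q 0) u *
PQ i (tail q) (dup g u)`, and `u ∈ YY g (i+1)` implies `dup g u ∈ YY g i`, so
`PQ i (tail q) (dup g u) = ∑ a_e mon e (dup g u)`. `mon e (dup g u) = ∏_l (dup g u l)^(e l)` is in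
`RN (4 κ_i) (2 κ_i σ + (κ_i - J(e)) σ')` (RDP and products: `e 2 + e 3 = κ_i - J(e)`), and
`w (a_e) ≤ exp(-δ (ν_i(σ') - (κ_i - J(e)) σ'))` (induction hypothesis at `σ'`): so `a_e mon e (dup g u)`
is in `RN (4 κ_i) (2 κ_i σ + ν_i(σ'))`; sum over `e`; `mon (q 0)` is in `RN 2 0` (its `ν` is
`(2 - J) σ ≥ 0`). Then `ν_i σ ≥ κ_i (σ - σ²) - i/2` and `ν_i 0 = 0`: induction with
`σ' - σ'² = 2σ - 4σ²`, `2 (σ - σ²) ≤ 1/2`. Conclusion: `σ = 0`: `w (a e) ≤ 1`; `σ = J/(2κ)`: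
`ν_i σ - (κ - J) σ ≥ J σ - κ σ² - i/2 = J²/(4κ) - i/2`. -/
def RpqStatement : Prop :=
  ∀ (E : Type) [Field E] (w : AbsoluteValue E ℝ) (g : E[X]) (δ : ℝ), NdC w g δ →
    ∀ (i : ℕ) (q : QI i), ∃ a : Ex (lev i) → E, (∀ u ∈ YY g i, PQ g i q u = ∑ e, a e * mon e.1 u) ∧
      ∀ e : Ex (lev i), w (a e) ≤
        Real.exp (-δ * max 0 ((jj e.1 : ℝ) ^ 2 / (4 * lev i) - i / 2))

/-- **Row DTS** (determinant of a product, nonarchimedean). PROOF. The matrix is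
`∑_e X_(j,e) Y_(e,q)`; multilinearity in the columns (`Matrix.detRowAlternating` for the transpose, or
`Matrix.det_apply` and `Finset.prod_sum`):
`det = ∑_(s : ι → n) (∏_q Y_(s q, q)) det (X_(j, s q))_(j,q)`; the terms with `s` not injective are 0
(two equal columns); `w (det (X_(j, s q))) ≤ ∏ ρ_j` (DTB of KDT or directly). -/
def DtsStatement : Prop :=
  ∀ (E : Type) [Field E] (w : AbsoluteValue E ℝ), IsNonarchimedean w →
    ∀ (ι n : Type) [Fintype ι] [DecidableEq ι] [Fintype n] (Xm : ι → n → E) (Ym : n → ι → E)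
      (ρ : ι → ℝ) (y : n → ℝ) (G : ℝ), (∀ j, 0 ≤ ρ j) → 0 ≤ G → (∀ j e, w (Xm j e) ≤ ρ j) →
    (∀ e q, w (Ym e q) ≤ y e) → (∀ e, 0 ≤ y e) →
    (∀ s : ι → n, Function.Injective s → ∏ q, y (s q) ≤ G) →
    w (Matrix.of fun (j q : ι) => ∑ e, Xm j e * Ym e q).det ≤ G * ∏ j, ρ j

/-- **Row NDT** (the determinant at a node; uses RPQ, DTS). `κ = lev i`. PROOF. `dup g (c • u) =
c⁴ • dup g u`, so by induction `dpw g a (u j 0) = Λ_(j,a) • u j a` for `a ≤ i`, `Λ_(j,0) = 1`,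
`Λ_(j,a+1) = Λ_(j,a)⁴ lam j a ≠ 0`, `log w Λ_(j,a) = 4^a L_(j,0) - L_(j,a)`; `u j 0 ∈ YY g i`
(`quart` is homogeneous of degree 4). `mon (q a) (dpw g a (u j 0)) = Λ_(j,a)² mon (q a) (u j a)`, so
`det (∏_a mon (q a) (u j a)) = ∏_j ∏_(a<i) Λ_(j,a)⁻² det (PQ g i q (u j 0))`. RPQ:
`PQ g i q (u j 0) = ∑_e mon e (u j 0) a_(q,e)`, DTS with `ρ j = exp(κ L_(j,0))`
(`w (mon e (u j 0)) ≤ exp(κ L_(j,0))`, the exponents have sum `κ`), `y e = exp(-δ max 0 (..))`,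
`G = exp(-δ Γ)`. `log w det ≤ ∑_j (κ L_(j,0) - ∑_a 2 (4^a L_(j,0) - L_(j,a))) - δ Γ`, and
`κ = ∑_(a<i) 2 4^a`. -/
def NdtStatement : Prop :=
  ∀ (E : Type) [Field E] (w : AbsoluteValue E ℝ) (g : E[X]) (δ : ℝ), NdC w g δ →
    ∀ (i : ℕ) (Γ : ℝ), Gain i Γ → ∀ (u : QI i → ℕ → Fin 4 → E) (lam : QI i → ℕ → E)
      (L : QI i → ℕ → ℝ), (∀ j, ∀ a ≤ i, quart g (u j a) = 0) →
    (∀ j, ∀ a < i, lam j a ≠ 0 ∧ dup g (u j a) = lam j a • u j (a + 1) ∧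
      L j (a + 1) = 4 * L j a - Real.log (w (lam j a))) →
    (∀ j l, w (u j 0 l) ≤ Real.exp (L j 0)) →
    (Matrix.of fun (j q : QI i) => ∏ a : Fin i, mon (q a).1 (u j a)).det ≠ 0 →
    Real.log (w (Matrix.of fun (j q : QI i) => ∏ a : Fin i, mon (q a).1 (u j a)).det) ≤
      ∑ j, ∑ a : Fin i, 2 * L j a - δ * Γ

/-- **Row UNT** (unipotent changes, quadratic monomials). PROOF. For `e ∈ Ex 2` (all exponents of degree
2): `mon e (uni c u) = ∑_(e' ∈ Ex 2) T e e' mon e' u` for all `u`, `T e e = 1`, `T e e' = 0` unless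
`e' = e` or `wt e' < wt e` (every `u_l` changes by multiples of `u_k`, `k < l`). The matrix is
`M * (T')ᵀ` with `T' q q' = ∏_a T (q a) (q' a)` (`Finset.prod_univ_sum`), `T'` is unitriangular for the
total weight `∑_a wt (q a)`: `det T' = 1` (`Matrix.det_of_upperTriangular` for a linear order refining
the total weight, `Matrix.BlockTriangular`, see UNV of KDT). -/
def UntStatement : Prop :=
  ∀ (E : Type) [Field E] (c : Fin 6 → E) (i : ℕ) (u : QI i → ℕ → Fin 4 → E),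
    (Matrix.of fun (j q : QI i) => ∏ a : Fin i, mon (q a).1 (uni c (u j a))).det =
      (Matrix.of fun (j q : QI i) => ∏ a : Fin i, mon (q a).1 (u j a)).det

/-- **Row CNS** (counting; uses KDT CTS or its method). PROOF. `κ = lev i = 2(4^i - 1)/3`, `N = 10^i`
columns. For every `J` at most `2κ` exponents `e ∈ Ex κ` have `jj e = J` (`κ ≥ 1`; CTS: for `1 ≤ J < κ`
exactly `2κ`, for `J = 0, κ`: `κ + 1 ≤ 2κ`), so at least `N - 2κ (J₀ + 1)` of the `s q` have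
`jj > J₀`. With `J₀ + 1 = ⌊N/(4κ)⌋`: the sum is `≥ (N/2) (J₀²/(4κ) - i/2)`, `N/(4κ) ≥ (3/8) (5/2)^i`,
`J₀²/(4κ) ≥ ((3/8)(5/2)^i - 2)² (3/8) 4^(-i)`, which grows like `(25/16)^i`: for `i` large it is
`≥ (2 C + 1/2) i`. -/
def CnsStatement : Prop :=
  ∀ C : ℝ, ∃ i : ℕ, 1 ≤ i ∧ Gain i (C * i * 10 ^ i)

/-- **Row MVP** (the combination as a polynomial). PROOF. `dup` as a vector of `MvPolynomial`s (`X l`,
`C (f.coeff k)`), `dpw`, `mon`, `PQ` by `MvPolynomial.bind₁` / products; total degrees: `dpw a` has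
degree `≤ 4^a`, `PQ i` has degree `≤ ∑_(a<i) 2 4^a = lev i`. Evaluation commutes with `φ`
(`(f.map φ).coeff k = φ (f.coeff k)`). -/
def MvpStatement : Prop :=
  ∀ (K : Type) [Field K] (f : K[X]) (i : ℕ) (c : QI i → K), ∃ P : MvPolynomial (Fin 4) K,
    P.totalDegree ≤ lev i ∧ ∀ (E : Type) [Field E] (φ : K →+* E) (u : Fin 4 → E),
      MvPolynomial.eval₂ φ u P = ∑ q, φ (c q) * PQ (f.map φ) i q u

end Pool.Agent.KDS
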