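import Pool.Agent.KDS.StmtsA

set_option autoImplicit false

/-!
# KDS, block I (independence of the columns), block G (global inequality), final row. Complete proofs in
the docstrings. Deliver as for `StmtsA.lean`, with `import Pool.Agent.KDS.StmtsB`.
-/

namespace Pool.Agent.KDS

open Polynomial NumberField H58Q Pool.Agent.SZT Pool.Agent.KDT

/-! ## Block I: independence -/

/-- **Row CLM** (Clifford relations). PROOF. Polynomial identities. (1) holds for every `a`: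
`a⁴ - a mA + mB = fd`. (2): the matrix `MT_a MT_b + MT_b MT_a` is `λ` times the identity,
`λ = 2 (f(a) - f(b))/(a - b) = 2 (a⁴ + a³b + a²b² + ab³ + b⁴) + 2 f₄ (a³ + a²b + ab² + b³) +
2 f₃ (a² + ab + b²) + 2 f₂ (a + b) + 2 f₁` (`(a - b) λ = 0` from the two roots). (3) holds for every `a`.
(5) degree 5, monic. (6), (7): `ring`. -/
def ClmStatement : Prop :=
  ∀ (K : Type) [Field K] (f : K[X]) (a b : K) (u v : Fin 4 → K) (c : K),
    MT f a (MT f a u) = fd f a • u ∧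
    (f.Monic → f.natDegree = 5 → f.IsRoot a → f.IsRoot b → a ≠ b →
      MT f a (MT f b u) = - MT f b (MT f a u)) ∧
    XX (MT f a u) (MT f a v) = fd f a * XX u v ∧
    MT f a (c • u + v) = c • MT f a u + MT f a v ∧
    (f.Monic → f.natDegree = 5 → (derivative f).eval a = fd f a) ∧
    QQ f a b ![0, 0, 0, 1] = b - a ∧
    XX (c • u) v = c * XX u v ∧ XX u (c • v) = c * XX u v

/-- **Row QTD** (the quadrics and the tropes of the double). PROOF. For all `u` (not only on the quartic)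
and roots `a ≠ b`: `QQ f a b u ^ 2 = (a - b)² (tau f a b (dup f u) - μ quart f u)`,
`μ = -2 ((a+b) f₂ + (a²+3ab+b²) f₃ + (a³+3a²b+3ab²+b³) f₄ + (a⁴+3a³b+5a²b²+3ab³+b⁴))`. Eliminate
`f₁ = -(a⁴+a³b+a²b²+ab³+b⁴) - f₄ (a³+a²b+ab²+b³) - f₃ (a²+ab+b²) - f₂ (a+b)` and
`f₀ = - a⁵ - f₄ a⁴ - f₃ a³ - f₂ a² - f₁ a`, then `ring` (variables `a, b, f₂, f₃, f₄, u`; if it is too
heavy, compare the coefficients of the monomials in `u`). Also `QQ f a b u = (b - a)
(tau² - (fd a T_b² + fd b T_a² - fd a fd b u₀²)/(a-b)²)`, `T_a = u₂ - a u₁ + a² u₀`. -/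
def QtdStatement : Prop :=
  ∀ (K : Type) [Field K] (f : K[X]) (a b : K) (u : Fin 4 → K), f.Monic → f.natDegree = 5 →
    f.IsRoot a → f.IsRoot b → a ≠ b → quart f u = 0 →
    (QQ f a b u) ^ 2 = (a - b) ^ 2 * tau f a b (dup f u)

/-- **Row TKU** (translation in Kummer coordinates). PROOF. `V - B = c A` (`A ∣ V - B`, degrees),
`V(a) = 0`: `c = - B(a)/A(a)`. Put `α = A(a)`, `β = B(a)`. Either reduce to `a = 0` by SHE (then `f₀ = 0`,
`b₀² = - p c₀` and the claim is `p s' = k₄`, `p p' = f₁`, `p k₄' = f₁ s`), or directly: compare the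
coefficients in `f - V² = (X - a) A A'` (degree 5): `A' = X² - s' X + p'`,
`s' = ..`, `B' = (-V) %ₘ A'`, all rational functions of `a, s, p, b₀, b₁, c₂, c₁` with denominator `α`
(`c₀` eliminated by `f(a) = 0`: `β² + α C'(a) = 0`); `field_simp; ring`. -/
def TkuStatement : Prop :=
  ∀ (K : Type) [Field K] (f A B A' B' V : K[X]) (a : K), (2 : K) ≠ 0 → f.Monic →
    f.natDegree = 5 → Mum f A B → A.natDegree = 2 → f.IsRoot a → A.eval a ≠ 0 →
    Trl f A B a A' B' V → A.eval a • kum f A' B' = MT f a (kum f A B)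

/-- **Row CLF** (a quadratic form which vanishes at all translates; uses CLM). PROOF. For a function
`F : K⁴ → K` let `(ρ_k F)(v) = F(MT f (θ k) v)/fd f (θ k)` (`fd ≠ 0`: `f = ∏ (X - θ k)`, `θ` injective,
CLM (5)). CLM: `ρ_k QQ_(ij) = QQ_(ij)` if `k ∉ {i, j}` (two anticommutations, (3)), `= - QQ_(ij)` if
`k = i` or `k = j` (for `k = i`: `M_i M_j M_i = - M_i M_i M_j`; for `k = j`:
`M_i M_j M_j = - M_j M_i M_j`). For a pair `i < j` let `π_(ij) = ∏_k (1 + ε_k ρ_k)/2`, `ε_k = -1` for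
`k ∈ {i,j}`, `1` otherwise (a combination of the `F ∘ M_l`, `l` a list); on combinations of the `QQ_(i'j')`
(where the `ρ_k` act diagonally) it is the projection to `QQ_(ij)`. (a) the ten `QQ_(ij)`, as vectors of
coefficients in `Ex 2 → K`, are linearly independent: apply `π_(ij)` and evaluate at `![0,0,0,1]`
(CLM (6)). So they span (`card (Ex 2) = 10`). (b) `G(v) = ∑ G e mon e v = ∑ γ_(ij) QQ_(ij)(v)`; the
hypothesis says that all `(G ∘ M_l)(u) = 0`, so `(π_(ij) G)(u) = γ_(ij) QQ_(ij)(u) = 0`, `γ_(ij) = 0`. So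
`G(v) = 0` for all `v`, and `G = 0` (evaluate at `e_k` and `e_k + e_l`). -/
def ClfStatement : Prop :=
  ∀ (K : Type) [Field K] (f : K[X]) (θ : Fin 5 → K) (u : Fin 4 → K), (2 : K) ≠ 0 → f.Monic →
    f.natDegree = 5 → Function.Injective θ → (∀ k, f.IsRoot (θ k)) →
    (∀ i j, i < j → QQ f (θ i) (θ j) u ≠ 0) →
    ∀ G : Ex 2 → K, (∀ l : List (Fin 5),
      ∑ e, G e * mon e.1 (l.foldr (fun k v => MT f (θ k) v) u) = 0) → G = 0

/-- **Row DIV** (halving; uses SZT.Mii, SZT.Mik, SZT.Pro, SZT.Rex, UBT.DedStmt). PROOF. (1) A point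
`(a, b)`, `b² = f(a)`: `f = ∏ (X - θ k)`, choose `r_k` with `r_k² = a - θ k`, `∏ r_k = b` (`∏ r_k² = b²`;
change the sign of one `r_k` if necessary). `s_j` = elementary symmetric functions of the `r_k`,
`U = (X - a)² - s₂ (X - a) + s₄`, `V = s₁ (X - a)² - s₃ (X - a) + s₅`. Then `f - V² = (X - a) U²`
(`∏ (r_k + z) = z U + V` with `z² = a - X`, multiply by the same for `-z`; or expand: identity in
`r_0, .., r_4, a, X` with `θ k = a - r_k²`), `V(a) = b`. `(X - a, y - b) = (X - a, y - V)`,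
`MI f U V ^ 2 * MI f (X - a) (C b) = (y - V)`: `⊆` clear; `⊇`: the product contains `U² (X - a)`,
`U (X - a) (y - V)`, `U (y - V)², (y - V)² (X - a)`, .. ; `(y - V)² = - 2V (y - V) + (X - a) U²`; a common
prime of the coefficients of `(y - V)` would divide `U` or `X - a`, and `V`, so its square divides `f`
(squarefree) - or use the method of IML (1) twice. With `B = V %ₘ U`, `Mum f U B`, and MII:
`MI f (X - a) (C b)` is in the class of `MI f U (-B) ^ 2`. (2) `A' = (X - a₁)(X - a₂)` (closed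
field), `MI f A' B'` is the product of the two point ideals (comaximal case, or `a₁ = a₂`,
`B'(a₁) ≠ 0` because `f` is squarefree: PRO and MIK as in BDK). `deg A' ≤ 1`: one or no point. (3) the
product of the two halves is in the class of some `MI f A B`, `deg A ≤ 2` (REX, `Q E f` is a Dedekind
domain). -/
def DivStatement : Prop :=
  ∀ (E : Type) [Field E] [IsAlgClosed E] (f A' B' : E[X]), (2 : E) ≠ 0 → f.Monic →
    f.natDegree = 5 → Squarefree f → Mum f A' B' → A'.natDegree ≤ 2 →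
    ∃ A B : E[X], Mum f A B ∧ A.natDegree ≤ 2 ∧ SameCl (MI f A' B') (MI f A B ^ 2)

/-- **Row HLF** (a half of a generic point is generic; uses DPB, SZT.Mii, SZT.Mik, SZT.Unq, SZT.Pro,
SZT.Bdk). `g = f.map`, squarefree. PROOF. `deg A = 0`: `MI g A' B'` principal, UNQ with the unit ideal
(`A = 1`, `B = 0`): contradiction. `deg A = 1`, `A = X - a`, `B = C b`: `b = 0`: `MI g A B ^ 2 = (X - a)`
(MII), again principal; `b ≠ 0`: PRO: `MI g A B ^ 2 = MI g ((X - a)²) B''`, UNQ: `A' = (X - a)²`, so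
`(A'.coeff 1)² = 4 A'.coeff 0`, which contradicts `Gnc` (the polynomial `X₀² - 4 X₁`). `deg A = 2`, not
good: BDK: `A ∣ g`, `B = 0`: MII: principal; or `MI g A B = MI g (X - t) 0 * MI g (X - a) (C b)`: the
square is in the class of `MI g (X - a) (C b) ^ 2`: as before. So `(A, B)` is good; DPB:
`kum g A' B' l = dup g (kum g A B) l / dup g (kum g A B) 0`. `Gnc K A`: suppose `s, p` are algebraically
dependent over `K`. Let `F` be the algebraic closure of `K(s, p)` in `E` (an intermediate field, of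
transcendence degree `≤ 1`). The roots `x₁, x₂` of `A` are in `F`, `B(x_i)² = g(x_i)`, so `B(x_i) ∈ F`;
`x₁ ≠ x₂`: `b₁ = (B(x₁) - B(x₂))/(x₁ - x₂)`; `x₁ = x₂`: `2 B(x₁) b₁ = g'(x₁)`, `B(x₁) ≠ 0`; so
`b₀, b₁ ∈ F`, `kum g A B ∈ F⁴`, `s', p' ∈ F`: two algebraically independent elements in a field of
transcendence degree `≤ 1`: contradiction. -/
def HlfStatement : Prop :=
  ∀ (K E : Type) [Field K] [CharZero K] [Field E] [Algebra K E] [IsAlgClosed E] (f : K[X])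
    (A' B' A B : E[X]), f.Monic → f.natDegree = 5 → Squarefree f →
    Mum (f.map (algebraMap K E)) A' B' → A'.natDegree = 2 → Gnc K A' →
    Mum (f.map (algebraMap K E)) A B → A.natDegree ≤ 2 →
    SameCl (MI (f.map (algebraMap K E)) A' B') (MI (f.map (algebraMap K E)) A B ^ 2) →
    Good (f.map (algebraMap K E)) A B ∧ Gnc K A

/-- **Row GEN** (generic points; uses KDT KQU). PROOF. (1) `E` = algebraic closure of the fraction field
of `K[X₀, X₁]`, `s = X₀`, `p = X₁`, `A = X² - s X + p`, roots `x₁ ≠ x₂` (`s² ≠ 4p`), `y_i² = f(x_i)`, `B` the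
interpolation polynomial (as in INB, `Helper50_KDT/INB.lean`). (2) `(A.coeff 1)² ≠ 4 A.coeff 0`:
`X₀² - 4 X₁ ≠ 0`. `Good`: a root `a` of `f` is in `K` (`f` splits over `K`, the roots of `f.map` are the
images) and `A(a) = a² - s a + p ≠ 0`. `tau = 0` with `a, b ∈ K`: `k₄ = (a+b) p - a b s - G(a,b)`;
insert in `quart (1, s, p, k₄) = 0` (KQU): a polynomial relation over `K` between `s` and `p` in which
the coefficient of `p⁴` is 1 (`p⁴` occurs only in the last summand `(u 2)^4` of `quart`): a nonzero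
polynomial, contradiction. -/
def GenStatement : Prop :=
  ∀ (K : Type) [Field K] [CharZero K] (f : K[X]), f.Monic → f.natDegree = 5 → Squarefree f →
    f.Splits →
    (∃ (E : Type) (_ : Field E) (_ : Algebra K E) (_ : IsAlgClosed E) (A B : E[X]),
      Mum (f.map (algebraMap K E)) A B ∧ A.natDegree = 2 ∧ Gnc K A) ∧
    ∀ (E : Type) [Field E] [Algebra K E] (A B : E[X]), Mum (f.map (algebraMap K E)) A B →
      A.natDegree = 2 → Gnc K A →
      Good (f.map (algebraMap K E)) A B ∧ (A.coeff 1) ^ 2 ≠ 4 * A.coeff 0 ∧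
      ∀ a b : E, (f.map (algebraMap K E)).IsRoot a → (f.map (algebraMap K E)).IsRoot b → a ≠ b →
        tau (f.map (algebraMap K E)) a b (kum (f.map (algebraMap K E)) A B) ≠ 0

/-- **Row INS** (STRONG; independence of the columns; uses CLM, QTD, TKU, CLF, DIV, HLF, GEN, DPB,
KDT.Trl, KDT.Kqu, SZT.Mii). PROOF. WLOG `f` splits over `K` (pass to a splitting field `K'`, compose the
maps). CLAIM by induction on `i`, for all `c : QI i → K`: if for all algebraically closed `E ⊇ K` and all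
generic `(A, B)` over `E` (`Mum`, degree 2, `Gnc`) `∑ c_q PQ g i q (kum g A B) = 0` (`g = f.map`), then
`c = 0`. `i = 0`: `PQ = 1`, and generic points exist (GEN (1)). Step `i + 1`: let `(A', B')` be
generic over `E`. DIV: a half `(A, B)`, HLF: good and generic; `u = kum g A B`. `θ : Fin 5 → E` the roots
of `g` (injective). For every list `l` there are a good generic half `(A_l, B_l)` of `(A', B')` and
`λ_l ≠ 0` with `kum g A_l B_l = λ_l • u_l`, `u_l = l.foldr (MT ..) u`: for `k :: l` TRL for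
`(A_l, B_l), θ k` (`A_l(θ k) ≠ 0` as `(A_l, B_l)` is good) gives `(A_(k::l), B_(k::l))`, TKU, and by
`Trl.idl` and MII (`MI g (X - θ k) 0 ^ 2 = (X - θ k)`) its square is in the class of
`MI g A_l B_l ^ 2`; HLF again. The hypothesis at `(A_l, B_l)`: `PQ g (i+1) q v = mon (q 0) v *
PQ g i (tail q) (dup g v)`, `dup g (kum g A_l B_l) = d • kum g A' B'`, `d ≠ 0` (DPB), and
`PQ g i q' (d • v) = d^(lev i) PQ g i q' v`. With `G e = ∑_(q') c_(e,q') PQ g i q' (kum g A' B')`: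
`∑_e G e mon e (kum g A_l B_l) = 0`, so `∑_e G e mon e u_l = 0` for all `l`. `QQ g (θ i) (θ j) u ≠ 0`: QTD
(`quart g u = 0` by KQU): `QQ² = (θ i - θ j)² tau(dup g u) = (..)² d tau (kum g A' B') ≠ 0` (GEN (2)). CLF:
`G = 0`. So for every `e` the family `c_(e, ·)` satisfies the hypothesis for `i`: it is 0. -/
def InsStatement : Prop :=
  ∀ (K : Type) [Field K] [CharZero K] (f : K[X]) (i : ℕ) (c : QI i → K), f.Monic →
    f.natDegree = 5 → Squarefree f → c ≠ 0 →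
    ∃ (E : Type) (_ : Field E) (φ : K →+* E) (A B : E[X]), Mum (f.map φ) A B ∧
      A.natDegree = 2 ∧ (A.coeff 1) ^ 2 ≠ 4 * A.coeff 0 ∧
      ∑ q, φ (c q) * PQ (f.map φ) i q (kum (f.map φ) A B) ≠ 0

/-! ## Block G: the places, the main inequality -/

/-- **Row PNB** (node data in shifted coordinates; uses the same statements as KDT PLN, see
`Helper7_KDT/PLN.lean`). PROOF. As PLN up to LFB: `Ω`, `w`, `i`, the roots `θ`, `s₁`. `θ₀ = θ 0`,
`g = (f.map i).comp (X + C θ₀)`: `g₀ = 0`, `g₁ = f'(θ₀) = ∏_(k ≠ 0) (θ 0 - θ k)`,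
`w (g₁) = ‖θ 0 - θ 1‖ = exp((1/2) log v (discr f))` (as in LFB), the coefficients of `g` are integral.
For a point with integral position LFB gives `w (uni (adc (f.map i) (θ 0) (θ 2)) κ l) ≤ exp(Lv)` for all
`l` (`κ = i ∘ kum`; `FF` of an integer is 0, `FF` of a half integer is 1/4). With
`b = θ 2 - θ 0`, `w b ≤ 1`: the coordinates `u = uni (shc (f.map i) (θ 0)) κ` are `u 0 = 1`,
`u 1 = (adc 1) + b`, `u 2 = (adc 2)`, `u 3 = tau + b (adc 2) + g₁ u 0` (in the shifted picture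
`tau = u 3 - b u 2 - g₁ u 0`), and `1 = w (κ 0) ≤ exp(Lv)`. -/
def PnbStatement : Prop :=
  ∀ (K : Type) [Field K] [NumberField K] (v : FinitePlace K) (f : K[X]) (n : ℕ),
    f.Monic → f.natDegree = 5 → Squarefree f → NodeShape v.val f → 0 < n →
    v (discr f) * (Ideal.absNorm v.maximalIdeal.asIdeal : ℝ) ^ n = 1 →
    ∀ I : Ideal (Q K f), I ≠ ⊥ →
    ∃ (s₁ : ℝ) (Ω : Type) (_ : Field Ω) (w : AbsoluteValue Ω ℝ) (i : K →+* Ω) (θ : Ω),
      (∃ m : ℤ, (n : ℝ) * s₁ = m) ∧ (∀ x, w (i x) = v x) ∧ (f.map i).IsRoot θ ∧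
      NdC w ((f.map i).comp (X + C θ)) (-Real.log (v (discr f))) ∧
      ∀ (k : ℕ) (A B U W : K[X]) (M : ℕ), VG f A B → SameCl (MI f A B) (I ^ k) →
        Gen f A B U W M → (∃ m : ℤ, (k : ℝ) * s₁ = m) →
        ∀ l : Fin 4, w (uni (shc (f.map i) θ) (fun l => i (kum f A B l)) l) ≤
          Real.exp (Lv v f A U M)

/-- **Row GLF** (finite places; uses KDT.Plf, UNT, KDT.Dtb). `N = 10^i` = number of the columns. PROOF.
`D` = the determinant; `i' D` is the determinant for the vectors `i' (kum ..)` (`RingHom.map_det`), by UNT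
the one for `uni c (i' kum)`. PLF with `κ = 2`: every entry is at most
`∏_a exp(2 (Lv_(j,a) - (1/2) log v(discr) - c2 log v 2)) = r j`, `c e = 1` in DTB. -/
def GlfStatement : Prop :=
  ∃ c2 : ℝ, 0 ≤ c2 ∧ ∀ (K : Type) [Field K] [NumberField K] (v : FinitePlace K) (f : K[X])
    (i M : ℕ) (A B U W : QI i → ℕ → K[X]), f.Monic → f.natDegree = 5 → Squarefree f →
    (∀ n, v (f.coeff n) ≤ 1) →
    (∀ j, ∀ a ≤ i, VG f (A j a) (B j a) ∧ Gen f (A j a) (B j a) (U j a) (W j a) M) →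
    (Matrix.of fun (j q : QI i) => ∏ a : Fin i, mon (q a).1 (kum f (A j a) (B j a))).det ≠ 0 →
    Real.log (v (Matrix.of fun (j q : QI i) =>
        ∏ a : Fin i, mon (q a).1 (kum f (A j a) (B j a))).det) ≤
      ∑ j, ∑ a : Fin i, 2 * Lv v f (A j a) (U j a) M -
        i * 10 ^ i * (Real.log (v (discr f)) + 2 * c2 * Real.log (v 2))

/-- **Row GLI** (infinite places; uses KDT.Pli, UNT, KDT.Dtb, KDT.Cts). PROOF. As GLF with PLI, `κ = 2`:
`r j = ∏_a exp(2 (Lv - (1/2) log v(discr) + ci) + 14 log spr)`, column factor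
`exp(∑_a wt (q a) log spr)`; `∑_q ∑_a wt (q a) = i 10^(i-1) 30 = 3 i 10^i` (`∑_(e ∈ Ex 2) wt e = 30`, by
`decide` or CTS). `Ck = 2 i 10^i ci + log (10^i)!`. -/
def GliStatement : Prop :=
  ∀ i : ℕ, ∃ Ck : ℝ, 0 ≤ Ck ∧ ∀ (K : Type) [Field K] [NumberField K] (v : InfinitePlace K)
    (f : K[X]) (M : ℕ) (A B U W : QI i → ℕ → K[X]), f.Monic → f.natDegree = 5 →
    Squarefree f →
    (∀ j, ∀ a ≤ i, VG f (A j a) (B j a) ∧ Gen f (A j a) (B j a) (U j a) (W j a) M) →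
    (Matrix.of fun (j q : QI i) => ∏ a : Fin i, mon (q a).1 (kum f (A j a) (B j a))).det ≠ 0 →
    Real.log (v (Matrix.of fun (j q : QI i) =>
        ∏ a : Fin i, mon (q a).1 (kum f (A j a) (B j a))).det) ≤
      ∑ j, ∑ a : Fin i, 2 * Lv v f (A j a) (U j a) M - i * 10 ^ i * Real.log (v (discr f)) +
        17 * i * 10 ^ i * Real.log (spr (f.map v.embedding)) + Ck

/-- **Row GLN** (node places; uses PNB, NDT, UNT, SHE, DPB, DVB, KDT.Kqu, KDT.Pln, KDT.Dtb). PROOF.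
`n > n₀`: PLN with `κ = 2`: the entries are at most
`∏_a exp(2 Lv - log v(discr) jj²/8) ≤ ∏_a exp(2 Lv - (1/2) log v(discr))` (`jj ≤ 2`); UNT, DTB.
`n ≤ n₀`: `n ∣ m₀`. PNB: `Ω, w, i', θ, s₁`; `g = (f.map i').comp (X + C θ)`, `c = shc (f.map i') θ`,
`δ = - log v(discr f)`. `u j a = uni c (i' ∘ kum f (A j a) (B j a))`, `quart g (u j a) = 0` (KQU, SHE). The
class of `(A j (a+1), B j (a+1))` is that of the square of `(A j a, B j a)` (SameCl is transitive and
multiplicative, `2^(a+1) = 2 2^a`): DPB: `dup f (kum f (A j a) (B j a)) = d • kum f (A j (a+1)) ..`,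
`d = (m Res)² ≠ 0`; apply `i'` (`dup` commutes with field homomorphisms) and SHE:
`dup g (u j a) = i' d • u j (a+1)`; `lam j a = i' d`, `L j a = Lv v f (A j a) (U j a) M`, DVB:
`L j (a+1) = 4 L j a - log v d`. `w (u j 0 l) ≤ exp(L j 0)`: PNB, the position `m₀ k_j s₁` is an integer
(`n ∣ m₀`). NDT, UNT (`RingHom.map_det`): `log v D ≤ ∑∑ 2 L - δ Γ`. -/
def GlnStatement : Prop :=
  ∀ (K : Type) [Field K] [NumberField K] (v : FinitePlace K) (f : K[X]) (n m₀ n₀ i M : ℕ)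
    (I : Ideal (Q K f)) (A B U W : QI i → ℕ → K[X]) (k : QI i → ℕ) (Γ : ℝ), f.Monic →
    f.natDegree = 5 → Squarefree f → NodeShape v.val f → 0 < n →
    v (discr f) * (Ideal.absNorm v.maximalIdeal.asIdeal : ℝ) ^ n = 1 → I ≠ ⊥ →
    (∀ m, 0 < m → m ≤ n₀ → m ∣ m₀) → Gain i Γ →
    (∀ j, ∀ a ≤ i, VG f (A j a) (B j a) ∧ Gen f (A j a) (B j a) (U j a) (W j a) M ∧
      SameCl (MI f (A j a) (B j a)) (I ^ (m₀ * (2 ^ a * k j)))) →
    (Matrix.of fun (j q : QI i) => ∏ a : Fin i, mon (q a).1 (kum f (A j a) (B j a))).det ≠ 0 →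
    Real.log (v (Matrix.of fun (j q : QI i) =>
        ∏ a : Fin i, mon (q a).1 (kum f (A j a) (B j a))).det) ≤
      ∑ j, ∑ a : Fin i, 2 * Lv v f (A j a) (U j a) M +
        (if n ≤ n₀ then Γ * Real.log (v (discr f))
          else -(i * 10 ^ i / 2 * Real.log (v (discr f))))

/-- **Row GLS** (the main inequality; uses GLF, GLI, GLN, SZT.Pfs, SZT.Qvn, SZT.Dsh). PROOF. As GLB of KDT
(`Helper49_KDT/GLB.lean`): product formula for `D`; `∑_v Lv = 0` for every `(j, a)` (PFS; `Gen.cop`,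
`VG`); `∑_inf mult log v(discr) + ∑_(T \ S) log v(discr) = - ∑_S log v(discr)` (DSH);
`∑_T log v 2 ≥ - [K:ℚ] log 2`, `∑_inf mult = [K:ℚ]`. With `N = 10^i`:
`0 ≤ i N ∑_S log v(discr) + 17 i N lH f + C [K:ℚ] - (i N/2) ∑_(S, n_v > n₀) log v(discr) +
Γ ∑_(S, n_v ≤ n₀) log v(discr)`, and `i N ∑_S - (i N/2) ∑_(S, n_v > n₀) ≤ 0`. `n_v > n₀` iff
`v(discr f) Nv^n₀ < 1`. -/
def GlsStatement : Prop :=
  ∀ i : ℕ, ∃ Cc : ℝ, 0 ≤ Cc ∧ ∀ (K : Type) [Field K] [NumberField K] (f : K[X])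
    (m₀ n₀ M : ℕ) (I : Ideal (Q K f)) (A B U W : QI i → ℕ → K[X]) (k : QI i → ℕ) (Γ : ℝ)
    (S : Finset (FinitePlace K)), f.Monic → f.natDegree = 5 → Squarefree f →
    (∀ n, IsIntegral ℤ (f.coeff n)) → I ≠ ⊥ → (∀ m, 0 < m → m ≤ n₀ → m ∣ m₀) → Gain i Γ →
    (∀ v ∈ S, NodeShape v.val f ∧ v (discr f) < 1) →
    (∀ j, ∀ a ≤ i, VG f (A j a) (B j a) ∧ Gen f (A j a) (B j a) (U j a) (W j a) M ∧
      SameCl (MI f (A j a) (B j a)) (I ^ (m₀ * (2 ^ a * k j)))) →
    (Matrix.of fun (j q : QI i) => ∏ a : Fin i, mon (q a).1 (kum f (A j a) (B j a))).det ≠ 0 →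
    Γ * (- ∑ v ∈ S with
        ¬ v (discr f) * (Ideal.absNorm v.maximalIdeal.asIdeal : ℝ) ^ n₀ < 1,
          Real.log (v (discr f))) ≤ 17 * i * 10 ^ i * lH f + Cc * Module.finrank ℚ K

/-- **Row EXC** (few exceptional multiples; uses KDT.Vgc, SZT.Unq). PROOF. The pair `(A k, B k)` depends
only on `k mod N` (`I^N` is principal, UNQ). For fixed `a ≤ i` the map `k ↦ 2^a k mod N` is at most
`2^a` to 1 on `[0, N)` (`gcd(2^a, N)` to 1), VGC bounds the bad residues by `40 (√N + 1)`. Sum over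
`a ≤ i`: `C = 40 · 2^(i+1)`. -/
def ExcStatement : Prop :=
  ∀ i : ℕ, ∃ C : ℝ, 0 ≤ C ∧ ∀ (K : Type) [Field K] [CharZero K] (f : K[X]) (I : Ideal (Q K f))
    (N : ℕ) (A B : ℕ → K[X]), f.Monic → f.natDegree = 5 → Squarefree f → I ≠ ⊥ → 0 < N →
    (∀ j : ℕ, (I ^ j).IsPrincipal ↔ N ∣ j) →
    (∀ k, Mum f (A k) (B k) ∧ (A k).natDegree ≤ 2 ∧ SameCl (MI f (A k) (B k)) (I ^ k)) →
    ({k : ℕ | k < N ∧ ¬ ∀ a ≤ i, VG f (A (2 ^ a * k)) (B (2 ^ a * k))}.ncard : ℝ)
      ≤ C * (Real.sqrt N + 1)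

/-- **Row KSF** (assembly; uses GLS, CNS, MVP, INS, EXC, DPB, KDT.Lmn, KDT ZERO, SZT.Pel, SZT.Rex,
SZT.Dsh, SZT.Qvn, SZT.Gpr, UBT.DedStmt). See KFN of KDT (`Helper11_KDT`). PROOF. `d, ε` given, WLOG
`ε ≤ 1`. `n₀ = ⌈40/ε⌉`, `m₀ = n₀!`; CNS with `C = 36/ε`: `i`, `Γ = C i 10^i`; `Cc` from GLS for `i`;
`h₁ = Cc d`; `B₁` from GPR for `Δ = exp(20 h₁)`; `B₂` from ZERO for the degree
`e = lev i + ⌈C'⌉`, `C'` from EXC for `i`. `B = max (m₀ B₂) B₁ B₂`. Let `c` have order `n`; `I` = reduced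
ideal of `c`; `c^m₀` has order `N`, `n ≤ m₀ N`, `((I^m₀)^j).IsPrincipal ↔ N ∣ j`; `A k, B k` reduced data
for `c^(m₀ k)`. `𝒢` = the set of the `k < N` with `VG` for all `2^a k`, `a ≤ i`; `Gen` from PEL with
`M = 2N` for all these points. CASE 1: for some `r : QI i → 𝒢` the determinant of
`∏_a mon (q a) (kum (A (2^a r j)) (B (2^a r j)))` is not 0. GLS with `k j = r j`:
`Γ T₀ ≤ 17 i 10^i h + Cc d`, `h = lH f`, `T₀ = - ∑_(S, n_v ≤ n₀) log v(discr)`. `T₀ ≥
∑_(S, n_v ≤ n₀) log Nv ≥ ε h - ∑_(S, n_v > n₀) log Nv`, and `log Nv = l_v/n_v ≤ l_v/n₀` for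
`n_v > n₀`, `∑_S l_v ≤ 20 h` (DSH): `T₀ ≥ ε h - 20 h/n₀ ≥ ε h/2`. So `18 i 10^i h ≤ 17 i 10^i h + Cc d`,
`h ≤ Cc d = h₁` (`i ≥ 1`), `|N(discr f)| ≤ exp(20 h)` (DSH), GPR: `n ≤ B₁`. CASE 2: all these
determinants vanish. LMN (`n = QI i`, `ι = 𝒢`): `c₀ ≠ 0` with
`∑_q c₀ q ∏_a mon (q a) (kum (A (2^a k)) ..) = 0` for all `k ∈ 𝒢`. By DPB
`dpw f a (kum f (A k) (B k)) = Λ_a • kum f (A (2^a k)) ..` for `a ≤ i` (`dup` is homogeneous), so
`∑_q c₀ q PQ f i q (kum f (A k) (B k)) = ∏_a Λ_a² · 0 = 0`. `P` from MVP, INS: `P` does not vanish at some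
point with `(A.coeff 1)² ≠ 4 A.coeff 0`. ZERO for `P`, the ideal `I^m₀`, `N`; the exceptional `j` are
outside `𝒢` (EXC). So `N ≤ B₂` or `Thin B₂ f`; `Thin` is monotone in `B`. -/
def KsfStatement : Prop := KdsStatement

end Pool.Agent.KDS
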